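import Mathlib

/-!
# FR/TOT: boxes of algebraic integers and ideals
-/

set_option autoImplicit false

namespace Pool.Agent.N31.FR

open NumberField Module

variable {K : Type} [Field K] [NumberField K]

/-- the index set of the integral basis -/
abbrev Ix (K : Type) [Field K] [NumberField K] : Type := Module.Free.ChooseBasisIndex ℤ (𝓞 K)

/-- the integer with given coordinates -/
noncomputable def el (z : Ix K → ℤ) : 𝓞 K := ∑ j, z j • RingOfIntegers.basis K j

/-- the coordinates of a point of the box -/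
def co {D : ℕ} (y : Ix K → Fin D) : Ix K → ℤ := fun j => ((y j : ℕ) : ℤ)

theorem el_sub (z z' : Ix K → ℤ) : el (z - z') = el z - el z' := by
  unfold el
  rw [← Finset.sum_sub_distrib]
  exact Finset.sum_congr rfl fun j _ => by rw [Pi.sub_apply, sub_smul]

theorem el_injective : Function.Injective (el (K := K)) := by
  intro z z' h
  have h1 : (RingOfIntegers.basis K).equivFun.symm z = (RingOfIntegers.basis K).equivFun.symm z' := by
    rw [Basis.equivFun_symm_apply, Basis.equivFun_symm_apply]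
    exact h
  exact (RingOfIntegers.basis K).equivFun.symm.injective h1

theorem co_injective {D : ℕ} : Function.Injective (co (K := K) (D := D)) := by
  intro y y' h
  funext j
  have := congrFun h j
  unfold co at this
  exact Fin.ext (by exact_mod_cast this)

theorem card_Ix : Fintype.card (Ix K) = finrank ℚ K := by
  rw [← RingOfIntegers.rank K]
  exact (Module.finrank_eq_card_chooseBasisIndex ℤ (𝓞 K)).symm

/-- the conjugates of the points of a box -/
theorem el_bound (K : Type) [Field K] [NumberField K] : ∃ C : ℕ, 1 ≤ C ∧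
    ∀ (z : Ix K → ℤ) (s : ℕ), (∀ j, |z j| ≤ s) → ∀ φ : K →+* ℂ, ‖φ (el z : K)‖ ≤ C * s := by
  classical
  refine ⟨⌈∑ φ : K →+* ℂ, ∑ j, ‖φ (RingOfIntegers.basis K j : K)‖⌉₊ + 1, by omega, ?_⟩
  intro z s hz φ
  have h1 : ∑ j, ‖φ (RingOfIntegers.basis K j : K)‖ ≤
      ∑ φ : K →+* ℂ, ∑ j, ‖φ (RingOfIntegers.basis K j : K)‖ :=
    Finset.single_le_sum (f := fun φ : K →+* ℂ => ∑ j, ‖φ (RingOfIntegers.basis K j : K)‖)
      (fun φ _ => Finset.sum_nonneg fun j _ => norm_nonneg _) (Finset.mem_univ φ)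
  have h2 : φ (el z : K) = ∑ j, (z j : ℂ) * φ (RingOfIntegers.basis K j : K) := by
    unfold el
    simp
  rw [h2]
  refine (norm_sum_le _ _).trans ?_
  have h3 : ∀ j, ‖(z j : ℂ) * φ (RingOfIntegers.basis K j : K)‖ ≤
      s * ‖φ (RingOfIntegers.basis K j : K)‖ := by
    intro j
    rw [norm_mul]
    refine mul_le_mul_of_nonneg_right ?_ (norm_nonneg _)
    rw [Complex.norm_intCast]
    have := hz j
    exact_mod_cast this
  refine (Finset.sum_le_sum fun j _ => h3 j).trans ?_
  rw [← Finset.mul_sum, mul_comm]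
  refine mul_le_mul_of_nonneg_right ?_ (Nat.cast_nonneg _)
  push_cast
  exact h1.trans ((Nat.le_ceil _).trans (by linarith))

/-- the norm of an integer whose conjugates are bounded -/
theorem absNorm_span_le {a : 𝓞 K} {R : ℝ} (h : ∀ φ : K →+* ℂ, ‖φ (a : K)‖ ≤ R) :
    (Ideal.absNorm (Ideal.span {a}) : ℝ) ≤ R ^ finrank ℚ K := by
  have h1 : (Ideal.absNorm (Ideal.span {a}) : ℝ) = ((|Algebra.norm ℚ (a : K)| : ℚ) : ℝ) := by
    rw [Ideal.absNorm_span_singleton, ← Algebra.coe_norm_int]
    rw [← Int.cast_abs, Int.abs_eq_natAbs]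
    simp
  rw [h1, ← InfinitePlace.prod_eq_abs_norm]
  calc ∏ w : InfinitePlace K, w (a : K) ^ w.mult ≤ ∏ w : InfinitePlace K, R ^ w.mult := by
        refine Finset.prod_le_prod (fun w _ => by positivity) fun w _ => ?_
        refine pow_le_pow_left₀ (by positivity) ?_ _
        rw [← InfinitePlace.norm_embedding_eq w]
        exact h _
    _ = R ^ finrank ℚ K := by
        rw [Finset.prod_pow_eq_pow_sum, InfinitePlace.sum_mult_eq]

theorem eq_zero_of_mem {g : Ideal (𝓞 K)} {a : 𝓞 K} (ha : a ∈ g) {R : ℝ}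
    (h : ∀ φ : K →+* ℂ, ‖φ (a : K)‖ ≤ R) (hg : R ^ finrank ℚ K < Ideal.absNorm g) : a = 0 := by
  by_contra h0
  have h1 : Ideal.absNorm g ∣ Ideal.absNorm (Ideal.span {a}) :=
    Ideal.absNorm_dvd_absNorm_of_le ((Ideal.span_singleton_le_iff_mem _).2 ha)
  have h2 : Ideal.absNorm (Ideal.span {a}) ≠ 0 := by
    rw [Ne, Ideal.absNorm_eq_zero_iff, Ideal.span_singleton_eq_bot]
    exact h0
  have h3 : Ideal.absNorm g ≤ Ideal.absNorm (Ideal.span {a}) :=
    Nat.le_of_dvd (Nat.pos_of_ne_zero h2) h1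
  have h4 : (Ideal.absNorm g : ℝ) ≤ Ideal.absNorm (Ideal.span {a}) := by exact_mod_cast h3
  have h5 := absNorm_span_le h
  linarith

open Classical in
/-- points of a box in a coset of an ideal -/
theorem box_count (K : Type) [Field K] [NumberField K] (N : ℕ) (hN : 1 ≤ N) (C₆ : ℕ)
    (hC₆ : 1 ≤ C₆) : ∃ C₅ : ℕ, ∀ D : ℕ, 1 ≤ D → ∀ g : Ideal (𝓞 K), g ≠ ⊥ →
      Ideal.absNorm g ≤ C₆ * D ^ finrank ℚ K → ∀ x₀ : 𝓞 K,
      (Finset.univ.filter fun y : Ix K → Fin D => x₀ + N * el (co y) ∈ g).card * Ideal.absNorm g ≤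
        C₅ * D ^ finrank ℚ K := by
  obtain ⟨C, hC, hel⟩ := el_bound K
  have hn : 0 < finrank ℚ K := finrank_pos
  refine ⟨(N * C * (1 + C₆)) ^ finrank ℚ K, fun D hD g hg hgD x₀ => ?_⟩
  -- the side of the small cubes
  have hex : ∃ t : ℕ, Ideal.absNorm g ≤ (N * C * (t + 1)) ^ finrank ℚ K := by
    refine ⟨Ideal.absNorm g, ?_⟩
    have h1 : Ideal.absNorm g ≤ N * C * (Ideal.absNorm g + 1) := by
      have : 1 ≤ N * C := Nat.mul_pos hN hC
      nlinarith
    exact h1.trans (Nat.le_self_pow hn.ne' _)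
  obtain ⟨s, hs1, hs2⟩ : ∃ s : ℕ, Ideal.absNorm g ≤ (N * C * (s + 1)) ^ finrank ℚ K ∧
      (N * C * s) ^ finrank ℚ K < Ideal.absNorm g := by
    refine ⟨Nat.find hex, Nat.find_spec hex, ?_⟩
    rcases Nat.eq_zero_or_pos (Nat.find hex) with h0 | h0
    · rw [h0, mul_zero, zero_pow hn.ne']
      exact Nat.pos_of_ne_zero (by rw [Ne, Ideal.absNorm_eq_zero_iff]; exact hg)
    · have h1 := Nat.find_min hex (m := Nat.find hex - 1) (by omega)
      rw [Nat.sub_add_cancel h0] at h1
      omega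
  have hsD : s + 1 ≤ C₆ * D := by
    have h1 : (N * C * s) ^ finrank ℚ K < (C₆ * D) ^ finrank ℚ K := by
      refine hs2.trans_le (hgD.trans ?_)
      rw [mul_pow]
      exact Nat.mul_le_mul_right _ (Nat.le_self_pow hn.ne' _)
    have h2 := lt_of_pow_lt_pow_left₀ _ (Nat.zero_le _) h1
    have h3 : s ≤ N * C * s := Nat.le_mul_of_pos_left _ (Nat.mul_pos hN hC)
    omega
  -- the cubes
  have hcard : (Finset.univ.filter fun y : Ix K → Fin D => x₀ + N * el (co y) ∈ g).card ≤
      (D / (s + 1) + 1) ^ finrank ℚ K := by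
    have h1 : (D / (s + 1) + 1) ^ finrank ℚ K =
        (Finset.univ : Finset (Ix K → Fin (D / (s + 1) + 1))).card := by
      rw [Finset.card_univ, Fintype.card_fun, Fintype.card_fin, card_Ix]
    rw [h1]
    refine Finset.card_le_card_of_injOn
      (fun y j => ⟨(y j : ℕ) / (s + 1), Nat.lt_succ_of_le (Nat.div_le_div_right (y j).2.le)⟩)
      (fun _ _ => Finset.mem_univ _) ?_
    intro y hy y' hy' h
    rw [Finset.mem_coe, Finset.mem_filter] at hy hy'
    have h2 : ∀ j, (y j : ℕ) / (s + 1) = (y' j : ℕ) / (s + 1) := fun j => by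
      have := congrFun h j
      exact congrArg Fin.val this
    have h3 : ∀ j, |(co y - co y') j| ≤ (s : ℤ) := by
      intro j
      rw [Pi.sub_apply]
      unfold co
      have e1 := Nat.div_add_mod (y j : ℕ) (s + 1)
      have e2 := Nat.div_add_mod (y' j : ℕ) (s + 1)
      have e3 : (y j : ℕ) % (s + 1) < s + 1 := Nat.mod_lt _ (Nat.succ_pos s)
      have e4 : (y' j : ℕ) % (s + 1) < s + 1 := Nat.mod_lt _ (Nat.succ_pos s)
      rw [h2 j] at e1
      rw [abs_le]
      constructor <;> omega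
    have h4 : (N : 𝓞 K) * el (co y - co y') ∈ g := by
      have h5 := g.sub_mem hy.2 hy'.2
      rw [el_sub]
      have h6 : (N : 𝓞 K) * (el (co y) - el (co y')) =
          x₀ + N * el (co y) - (x₀ + N * el (co y')) := by ring
      rw [h6]
      exact h5
    have h5 : (N : 𝓞 K) * el (co y - co y') = 0 := by
      refine eq_zero_of_mem h4 (R := (N * C * s : ℕ)) (fun φ => ?_) (by exact_mod_cast hs2)
      have h6 := hel (co y - co y') s h3 φ
      have h7 : φ (((N : 𝓞 K) * el (co y - co y') : 𝓞 K) : K) = N * φ (el (co y - co y') : K) := by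
        push_cast
        rw [map_mul, map_natCast]
      rw [h7, norm_mul, Complex.norm_natCast]
      push_cast
      rw [mul_assoc]
      exact mul_le_mul_of_nonneg_left h6 (Nat.cast_nonneg _)
    have h6 : el (co y - co y') = 0 := by
      refine (mul_eq_zero.1 h5).resolve_left ?_
      have : N ≠ 0 := by omega
      exact_mod_cast this
    rw [el_sub, sub_eq_zero] at h6
    exact co_injective (el_injective h6)
  calc (Finset.univ.filter fun y : Ix K → Fin D => x₀ + N * el (co y) ∈ g).card * Ideal.absNorm g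
      ≤ (D / (s + 1) + 1) ^ finrank ℚ K * (N * C * (s + 1)) ^ finrank ℚ K :=
        Nat.mul_le_mul hcard hs1
    _ = (N * C * ((s + 1) * (D / (s + 1)) + (s + 1))) ^ finrank ℚ K := by
        rw [← mul_pow]; ring
    _ ≤ (N * C * ((1 + C₆) * D)) ^ finrank ℚ K := by
        refine Nat.pow_le_pow_left (Nat.mul_le_mul_left _ ?_) _
        have h1 := Nat.mul_div_le D (s + 1)
        have h2 : (1 + C₆) * D = D + C₆ * D := by ring
        rw [h2]
        omega
    _ = _ := by rw [← mul_pow]; ring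

end Pool.Agent.N31.FR
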