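import Mathlib

/-!
# FR/TOT: Eisenstein polynomials over number fields
-/

set_option autoImplicit false

namespace Pool.Agent.N31.FR

open NumberField IsDedekindDomain Module Polynomial WithZero

section

variable {K : Type} [Field K] [NumberField K]

/-- the monic polynomial determined by its coefficients up to a scalar -/
noncomputable def gp {r : ℕ} (c : Fin (r + 1) → 𝓞 K) : K[X] :=
  ∑ i : Fin (r + 1), C ((c i : K) * (c (Fin.last r) : K)⁻¹) * X ^ (i : ℕ)

omit [NumberField K] in
theorem gp_coeff {r : ℕ} (c : Fin (r + 1) → 𝓞 K) (i : Fin (r + 1)) :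
    (gp c).coeff i = (c i : K) * (c (Fin.last r) : K)⁻¹ := by
  unfold gp
  rw [finsetSum_coeff, Finset.sum_eq_single i]
  · rw [coeff_C_mul_X_pow, if_pos rfl]
  · intro j _ hj
    rw [coeff_C_mul_X_pow, if_neg]
    intro h
    exact hj (Fin.ext h.symm)
  · intro h
    exact absurd (Finset.mem_univ i) h

omit [NumberField K] in
theorem gp_natDegree_le {r : ℕ} (c : Fin (r + 1) → 𝓞 K) : (gp c).natDegree ≤ r := by
  unfold gp
  refine natDegree_sum_le_of_forall_le _ _ fun i _ => ?_
  exact (natDegree_C_mul_X_pow_le _ _).trans (Nat.lt_succ_iff.1 i.2)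

theorem gp_monic {r : ℕ} {c : Fin (r + 1) → 𝓞 K} (h : c (Fin.last r) ≠ 0) : (gp c).Monic := by
  refine monic_of_natDegree_le_of_coeff_eq_one r (gp_natDegree_le c) ?_
  have h1 := gp_coeff c (Fin.last r)
  rw [Fin.val_last] at h1
  rw [h1]
  refine mul_inv_cancel₀ ?_
  rw [Ne, RingOfIntegers.coe_eq_zero_iff]
  exact h

theorem gp_natDegree {r : ℕ} {c : Fin (r + 1) → 𝓞 K} (h : c (Fin.last r) ≠ 0) :
    (gp c).natDegree = r := by
  refine le_antisymm (gp_natDegree_le c) (le_natDegree_of_ne_zero ?_)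
  have h1 := gp_coeff c (Fin.last r)
  rw [Fin.val_last] at h1
  have h2 : (c (Fin.last r) : K) ≠ 0 := by
    rw [Ne, RingOfIntegers.coe_eq_zero_iff]
    exact h
  rw [h1]
  exact mul_ne_zero h2 (inv_ne_zero h2)

variable (q : HeightOneSpectrum (𝓞 K))

/-- the valuation ring of a prime -/
noncomputable abbrev Rq : ValuationSubring K := (q.valuation K).valuationSubring

/-- its maximal ideal -/
noncomputable def Pq : Ideal (Rq q) where
  carrier := {x | q.valuation K (x : K) < 1}
  add_mem' := by
    intro a b ha hb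
    exact (q.valuation K).map_add_lt ha hb
  zero_mem' := by
    show q.valuation K ((0 : Rq q) : K) < 1
    rw [ZeroMemClass.coe_zero, map_zero]
    exact zero_lt_one
  smul_mem' := by
    intro a b hb
    show q.valuation K ((a • b : Rq q) : K) < 1
    have ha : q.valuation K (a : K) ≤ 1 := a.2
    have hb' : q.valuation K (b : K) < 1 := hb
    have e : ((a • b : Rq q) : K) = (a : K) * (b : K) := rfl
    rw [e, map_mul]
    refine (mul_le_mul' ha le_rfl).trans_lt ?_
    rwa [one_mul]

theorem mem_Pq {x : Rq q} : x ∈ Pq q ↔ q.valuation K (x : K) < 1 := Iff.rfl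

theorem Pq_prime : (Pq q).IsPrime := by
  refine ⟨?_, ?_⟩
  · rw [Ne, Ideal.eq_top_iff_one, mem_Pq, OneMemClass.coe_one, map_one]
    exact lt_irrefl _
  · intro x y h
    rw [mem_Pq] at h ⊢
    rw [mem_Pq]
    have hx : q.valuation K (x : K) ≤ 1 := x.2
    have hy : q.valuation K (y : K) ≤ 1 := y.2
    by_contra hc
    rw [not_or, not_lt, not_lt] at hc
    have e : ((x * y : Rq q) : K) = (x : K) * (y : K) := rfl
    rw [e, map_mul, le_antisymm hx hc.1, le_antisymm hy hc.2, mul_one] at h
    exact lt_irrefl _ h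

theorem lt_one_iff {x : ℤᵐ⁰} : x < 1 ↔ x ≤ exp (-1) := by
  rw [← exp_zero]
  constructor
  · intro h
    by_cases h0 : x = 0
    · rw [h0]; exact zero_le
    · rw [← exp_log h0] at h ⊢
      rw [exp_lt_exp] at h
      rw [exp_le_exp]
      omega
  · intro h
    exact h.trans_lt (by rw [exp_lt_exp]; norm_num)

theorem mem_Pq_sq {x : Rq q} (h : x ∈ Pq q ^ 2) : q.valuation K (x : K) ≤ exp (-2) := by
  rw [pow_two] at h
  refine Submodule.mul_induction_on h ?_ ?_
  · intro a ha b hb
    have ha' := lt_one_iff.1 ((mem_Pq q).1 ha)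
    have hb' := lt_one_iff.1 ((mem_Pq q).1 hb)
    have e : ((a * b : Rq q) : K) = (a : K) * (b : K) := rfl
    rw [e, map_mul]
    have e2 : (exp (-2) : ℤᵐ⁰) = exp (-1) * exp (-1) := by
      rw [← exp_add]
      norm_num
    rw [e2]
    exact mul_le_mul' ha' hb'
  · intro a b ha hb
    exact (q.valuation K).map_add_le ha hb

theorem irreducible_gp {r : ℕ} (hr : 1 ≤ r) {c : Fin (r + 1) → 𝓞 K}
    (h1 : ∀ i, i ≠ Fin.last r → c i ∈ q.asIdeal) (h2 : c 0 ∉ q.asIdeal ^ 2)
    (h3 : c (Fin.last r) ∉ q.asIdeal) : Irreducible (gp c) := by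
  have hv : q.valuation K (c (Fin.last r) : K) = 1 :=
    (HeightOneSpectrum.valuation_eq_one_iff_notMem q).2 h3
  have hvi : ∀ i, q.valuation K ((c i : K) * (c (Fin.last r) : K)⁻¹) =
      q.valuation K (c i : K) := by
    intro i
    rw [map_mul, map_inv₀, hv, inv_one, mul_one]
  let a : Fin (r + 1) → Rq q := fun i => ⟨(c i : K) * (c (Fin.last r) : K)⁻¹, by
    rw [Valuation.mem_valuationSubring_iff, hvi]
    exact HeightOneSpectrum.valuation_le_one q _⟩
  have hc0 : c (Fin.last r) ≠ 0 := fun h => h3 (by rw [h]; exact Ideal.zero_mem _)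
  obtain ⟨f, hf⟩ : ∃ f : (Rq q)[X], f = ∑ i : Fin (r + 1), C (a i) * X ^ (i : ℕ) := ⟨_, rfl⟩
  have hcoeff : ∀ i : Fin (r + 1), f.coeff i = a i := by
    intro i
    rw [hf, finsetSum_coeff, Finset.sum_eq_single i]
    · simp
    · intro j _ hj
      rw [coeff_C_mul_X_pow, if_neg]
      intro h
      exact hj (Fin.ext h.symm)
    · intro h
      exact absurd (Finset.mem_univ i) h
  have hmap : f.map (algebraMap (Rq q) K) = gp c := by
    rw [hf, gp, Polynomial.map_sum]
    refine Finset.sum_congr rfl fun i _ => ?_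
    rw [Polynomial.map_mul, map_C, Polynomial.map_pow, map_X]
    rfl
  have hlast : a (Fin.last r) = 1 := by
    apply Subtype.ext
    show (c (Fin.last r) : K) * (c (Fin.last r) : K)⁻¹ = 1
    refine mul_inv_cancel₀ ?_
    rw [Ne, RingOfIntegers.coe_eq_zero_iff]
    exact hc0
  have hdeg : f.natDegree ≤ r := by
    rw [hf]
    refine natDegree_sum_le_of_forall_le _ _ fun i _ => ?_
    exact (natDegree_C_mul_X_pow_le _ _).trans (Nat.lt_succ_iff.1 i.2)
  have hfr : f.coeff r = 1 := by
    have := hcoeff (Fin.last r)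
    rw [Fin.val_last] at this
    rw [this, hlast]
  have hmon : f.Monic := monic_of_natDegree_le_of_coeff_eq_one r hdeg hfr
  have hdeg' : f.natDegree = r := by
    refine le_antisymm hdeg (le_natDegree_of_ne_zero ?_)
    rw [hfr]
    exact one_ne_zero
  have heis : f.IsEisensteinAt (Pq q) := by
    refine ⟨?_, ?_, ?_⟩
    · rw [hmon.leadingCoeff]
      exact fun h => (Pq_prime q).ne_top ((Ideal.eq_top_iff_one _).2 h)
    · intro n hn
      rw [hdeg'] at hn
      have h4 := hcoeff ⟨n, by omega⟩
      have h5 : f.coeff n = a ⟨n, by omega⟩ := h4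
      rw [h5, mem_Pq]
      show q.valuation K ((c ⟨n, by omega⟩ : K) * (c (Fin.last r) : K)⁻¹) < 1
      rw [hvi]
      refine (HeightOneSpectrum.valuation_lt_one_iff_mem q _).2 (h1 _ ?_)
      intro h
      have := congrArg Fin.val h
      rw [Fin.val_last] at this
      simp only at this
      omega
    · intro h
      have h4 := mem_Pq_sq q h
      have h5 : f.coeff 0 = a 0 := hcoeff 0
      rw [h5] at h4
      have h6 : q.valuation K ((c 0 : K) * (c (Fin.last r) : K)⁻¹) ≤ exp (-2) := h4
      rw [hvi] at h6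
      apply h2
      rw [← HeightOneSpectrum.intValuation_le_pow_iff_mem,
        ← HeightOneSpectrum.valuation_of_algebraMap (K := K)]
      exact h6
  have hirr : Irreducible f := heis.irreducible (Pq_prime q) hmon.isPrimitive (by omega)
  rw [← hmap]
  exact (hmon.irreducible_iff_irreducible_map_fraction_map (K := K)).1 hirr

end

end Pool.Agent.N31.FR
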