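import Pool.Agent.N265.CV.Htc
import Pool.Agent.N31.FR.Eis

/-!
# FR/TOT: the height of a root
-/

set_option autoImplicit false

namespace Pool.Agent.N31.FR

open NumberField IsDedekindDomain Module Polynomial Pool.Agent.N753.DR

theorem logHeight_le {K : Type} [Field K] [NumberField K] {r : ℕ} {c : Fin (r + 1) → 𝓞 K}
    (h0 : c ≠ 0) {R : ℝ} (hR : 1 ≤ R) (h : ∀ i, ∀ φ : K →+* ℂ, ‖φ (c i : K)‖ ≤ R) :
    Height.logHeight (fun i => (c i : K)) ≤ finrank ℚ K * Real.log R := by
  have hx : (fun i => (c i : K)) ≠ 0 := by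
    intro h1
    apply h0
    funext i
    have := congrFun h1 i
    exact RingOfIntegers.coe_eq_zero_iff.1 this
  rw [Height.logHeight_eq_log_mulHeight, ← Real.log_pow]
  refine Real.log_le_log (Height.mulHeight_pos _) ?_
  rw [NumberField.mulHeight_eq hx]
  have h1 : ∏ᶠ v : FinitePlace K, ⨆ i, v (c i : K) ≤ 1 := by
    have h2 := NumberField.absNorm_mul_finprod_finitePlace_eq_one h0
    have h3 : (1 : ℝ) ≤ Ideal.absNorm (Ideal.span (Set.range c)) := by
      have : Ideal.absNorm (Ideal.span (Set.range c)) ≠ 0 := by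
        intro h4
        rw [h4, Nat.cast_zero, zero_mul] at h2
        exact zero_ne_one h2
      exact_mod_cast Nat.one_le_iff_ne_zero.2 this
    have h4 : 0 ≤ ∏ᶠ v : FinitePlace K, ⨆ i, v (c i : K) :=
      finprod_nonneg fun v => Real.iSup_nonneg fun i => by positivity
    calc ∏ᶠ v : FinitePlace K, ⨆ i, v (c i : K) = 1 * ∏ᶠ v : FinitePlace K, ⨆ i, v (c i : K) := by
          rw [one_mul]
      _ ≤ Ideal.absNorm (Ideal.span (Set.range c)) * ∏ᶠ v : FinitePlace K, ⨆ i, v (c i : K) :=
          mul_le_mul_of_nonneg_right h3 h4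
      _ = 1 := h2
  have h5 : ∏ v : InfinitePlace K, (⨆ i, v (c i : K)) ^ v.mult ≤ R ^ finrank ℚ K := by
    rw [← InfinitePlace.sum_mult_eq, ← Finset.prod_pow_eq_pow_sum]
    refine Finset.prod_le_prod (fun v _ => pow_nonneg (Real.iSup_nonneg fun i => by positivity) _)
      fun v _ => ?_
    refine pow_le_pow_left₀ (Real.iSup_nonneg fun i => by positivity) ?_ _
    refine ciSup_le fun i => ?_
    rw [← InfinitePlace.norm_embedding_eq v]
    exact h i _
  calc _ ≤ R ^ finrank ℚ K * 1 := by
        refine mul_le_mul h5 h1 ?_ (by positivity)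
        exact finprod_nonneg fun v => Real.iSup_nonneg fun i => by positivity
    _ = R ^ finrank ℚ K := mul_one _

/-- the height of the root of an irreducible polynomial with small coefficients -/
theorem atH (K : Type) [Field K] [NumberField K] (r : ℕ) : ∃ C : ℝ, ∀ (c : Fin (r + 1) → 𝓞 K)
    (R U : ℝ), 1 ≤ R → c (Fin.last r) ≠ 0 → (∀ i, ∀ φ : K →+* ℂ, ‖φ (c i : K)‖ ≤ R) →
    Irreducible (gp c) → finrank ℚ K * Real.log R + C ≤ U → AtH r U (gp c) := by
  have hlin : LinearIndependent K (fun i : Fin (r + 1) => (X : K[X]) ^ (i : ℕ)) := by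
    have h1 := (Polynomial.basisMonomials K).linearIndependent.comp
      (fun i : Fin (r + 1) => (i : ℕ)) Fin.val_injective
    have h2 : (⇑(Polynomial.basisMonomials K) ∘ fun i : Fin (r + 1) => (i : ℕ)) =
        fun i : Fin (r + 1) => (X : K[X]) ^ (i : ℕ) := by
      funext i
      simp [Polynomial.coe_basisMonomials, Polynomial.monomial_one_right_eq_X_pow]
    rwa [h2] at h1
  obtain ⟨C, hC⟩ := Pool.Agent.N265.CV.t K K[X] (r + 1)
    (fun i : Fin (r + 1) => (X : K[X]) ^ (i : ℕ)) hlin
  refine ⟨C, fun c R U hR hc hbd hirr hU => ?_⟩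
  have hlast : (c (Fin.last r) : K) ≠ 0 := by
    rw [Ne, RingOfIntegers.coe_eq_zero_iff]
    exact hc
  have hmon := gp_monic hc
  have hdeg := gp_natDegree hc
  obtain ⟨F, hF⟩ : ∃ F, F = gp c := ⟨_, rfl⟩
  rw [← hF] at hirr hmon hdeg ⊢
  have : Fact (Irreducible F) := ⟨hirr⟩
  have hfd : FiniteDimensional K (AdjoinRoot F) := (AdjoinRoot.powerBasis hmon.ne_zero).finite
  have hch : CharZero (AdjoinRoot F) := charZero_of_injective_algebraMap
    (algebraMap K (AdjoinRoot F)).injective
  have hfq : FiniteDimensional ℚ (AdjoinRoot F) := Module.Finite.trans K (AdjoinRoot F)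
  have hN : NumberField (AdjoinRoot F) := { to_charZero := hch, to_finiteDimensional := hfq }
  have hmp : minpoly K (AdjoinRoot.root F) = F := by
    rw [AdjoinRoot.minpoly_root hmon.ne_zero, hmon.leadingCoeff, inv_one, C_1, mul_one]
  refine ⟨AdjoinRoot F, inferInstance, hN, inferInstance, AdjoinRoot.root F, ?_, ?_, hmp, ?_⟩
  · rw [(AdjoinRoot.powerBasis hmon.ne_zero).finrank, AdjoinRoot.powerBasis_dim, hdeg]
  · rw [hmp, hdeg]
  · have hsurj : Function.Surjective (aeval (R := K) (AdjoinRoot.root F)) := by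
      intro y
      obtain ⟨p, rfl⟩ := AdjoinRoot.mk_surjective y
      exact ⟨p, AdjoinRoot.aeval_eq p⟩
    have hmem : mem (fun i : Fin (r + 1) => (X : K[X]) ^ (i : ℕ)) (fun i => (c i : K)) =
        Polynomial.C (c (Fin.last r) : K) * F := by
      unfold mem
      rw [hF, gp, Finset.mul_sum]
      refine Finset.sum_congr rfl fun i _ => ?_
      rw [Polynomial.smul_eq_C_mul, ← mul_assoc, ← Polynomial.C_mul]
      congr 2
      field_simp
    have hker : RingHom.ker (aeval (R := K) (AdjoinRoot.root F)) =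
        Ideal.span {mem (fun i : Fin (r + 1) => (X : K[X]) ^ (i : ℕ)) (fun i => (c i : K))} := by
      rw [hmem]
      have h1 : Ideal.span {Polynomial.C (c (Fin.last r) : K) * F} = Ideal.span {F} := by
        rw [Ideal.span_singleton_eq_span_singleton]
        refine ⟨(Polynomial.isUnit_C.2 (isUnit_iff_ne_zero.2 hlast)).unit⁻¹, ?_⟩
        rw [mul_comm, ← mul_assoc, IsUnit.val_inv_mul, one_mul]
      rw [h1]
      ext p
      rw [RingHom.mem_ker, Ideal.mem_span_singleton]
      constructor
      · intro h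
        rw [AdjoinRoot.aeval_eq] at h
        exact AdjoinRoot.mk_eq_zero.1 h
      · intro h
        rw [AdjoinRoot.aeval_eq]
        exact AdjoinRoot.mk_eq_zero.2 h
    have h0 : (fun i => (c i : K)) ≠ 0 := by
      intro h
      exact hlast (congrFun h (Fin.last r))
    have h0' : c ≠ 0 := by
      intro h
      exact hc (congrFun h (Fin.last r))
    have h2 := hC (AdjoinRoot F) (aeval (R := K) (AdjoinRoot.root F)) (fun i => (c i : K)) hsurj
      hker h0
    have h3 : finrank K[X] K[X] = 1 := Module.finrank_self _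
    rw [h3, Nat.cast_one, one_mul] at h2
    have h4 : aeval (R := K) (AdjoinRoot.root F) (algebraMap K[X] K[X] X) = AdjoinRoot.root F := by
      rw [Algebra.algebraMap_self, RingHom.id_apply, aeval_X]
    rw [h4] at h2
    have h5 := logHeight_le h0' hR hbd
    linarith

end Pool.Agent.N31.FR
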