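import Mathlib

/-!
# FR/TOT: the tail of the sum over the ideals
-/

set_option autoImplicit false

namespace Pool.Agent.N31.FR

open NumberField Module Filter

/-- few ideals of bounded norm -/
theorem card_ideals (K : Type) [Field K] [NumberField K] : ∃ (C : ℝ) (T₀ : ℕ), 0 < C ∧ 1 ≤ T₀ ∧
    ∀ M : ℕ, T₀ ≤ M → ∀ G : Finset (Ideal (𝓞 K)), (∀ g ∈ G, Ideal.absNorm g ≤ M) →
      (G.card : ℝ) ≤ C * M := by
  have h := NumberField.Ideal.tendsto_norm_le_div_atTop K
  set L := ((2 ^ InfinitePlace.nrRealPlaces K * (2 * Real.pi) ^ InfinitePlace.nrComplexPlaces K *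
    Units.regulator K * classNumber K) / (Units.torsionOrder K * Real.sqrt |discr K|)) with hL
  have h1 : ∀ᶠ s : ℝ in atTop,
      (Nat.card {I : Ideal (𝓞 K) // (Ideal.absNorm I : ℝ) ≤ s} : ℝ) / s < |L| + 1 := by
    refine h.eventually_lt_const ?_
    have := le_abs_self L
    linarith
  obtain ⟨s₀, hs₀⟩ := eventually_atTop.1 h1
  refine ⟨|L| + 1, ⌈s₀⌉₊ + 1, by positivity, by omega, fun M hM G hG => ?_⟩
  have hM0 : (0 : ℝ) < M := by
    have : 0 < M := by omega
    exact_mod_cast this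
  have hMs : s₀ ≤ M := by
    refine (Nat.le_ceil s₀).trans ?_
    exact_mod_cast (by omega : ⌈s₀⌉₊ ≤ M)
  have h2 := hs₀ M hMs
  rw [div_lt_iff₀ hM0] at h2
  refine le_trans ?_ h2.le
  have hfin : {I : Ideal (𝓞 K) | Ideal.absNorm I ≤ M}.Finite := Ideal.finite_setOfPred_absNorm_le M
  have h3 : (G : Set (Ideal (𝓞 K))) ⊆ {I : Ideal (𝓞 K) | Ideal.absNorm I ≤ M} := fun g hg => hG g hg
  have h4 := Set.ncard_le_ncard h3 hfin
  rw [Set.ncard_coe_finset] at h4
  have h5 : Nat.card {I : Ideal (𝓞 K) // (Ideal.absNorm I : ℝ) ≤ M} =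
      {I : Ideal (𝓞 K) | Ideal.absNorm I ≤ M}.ncard := by
    rw [← Nat.card_coe_set_eq]
    refine Nat.card_congr (Equiv.subtypeEquivRight fun I => ?_)
    rw [Set.mem_ofPred_eq, Nat.cast_le]
  rw [h5]
  exact_mod_cast h4

theorem tail (K : Type) [Field K] [NumberField K] : ∃ (C : ℝ) (T₀ : ℕ), 0 < C ∧ 1 ≤ T₀ ∧
    ∀ T : ℕ, T₀ ≤ T → ∀ G : Finset (Ideal (𝓞 K)), (∀ g ∈ G, T < Ideal.absNorm g) →
      ∑ g ∈ G, 1 / (Ideal.absNorm g : ℝ) ^ 2 ≤ C / T := by
  classical
  obtain ⟨C, T₀, hC, hT₀, h⟩ := card_ideals K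
  refine ⟨3 * C, T₀, by positivity, hT₀, fun T hT G hG => ?_⟩
  have hT0 : (0 : ℝ) < T := by
    have : 0 < T := by omega
    exact_mod_cast this
  have key : ∀ M : ℕ, T ≤ M →
      ∑ g ∈ G with Ideal.absNorm g ≤ M, 1 / (Ideal.absNorm g : ℝ) ^ 2 ≤
        ((G.filter fun g => Ideal.absNorm g ≤ M).card : ℝ) / (M : ℝ) ^ 2 +
          2 * C * (1 / T - 1 / M) := by
    intro M hM
    induction M, hM using Nat.le_induction with
    | base =>
      have he : G.filter (fun g => Ideal.absNorm g ≤ T) = ∅ := by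
        rw [Finset.filter_eq_empty_iff]
        intro g hg
        have := hG g hg
        omega
      rw [he]
      simp
    | succ M hM ih =>
      have hM0 : (0 : ℝ) < M := by
        have : 0 < M := by omega
        exact_mod_cast this
      have hsplit : G.filter (fun g => Ideal.absNorm g ≤ M + 1) =
          G.filter (fun g => Ideal.absNorm g ≤ M) ∪ G.filter (fun g => Ideal.absNorm g = M + 1) := by
        ext g
        simp only [Finset.mem_filter, Finset.mem_union]
        constructor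
        · rintro ⟨h1, h2⟩
          rcases Nat.lt_or_ge (Ideal.absNorm g) (M + 1) with h3 | h3
          · exact Or.inl ⟨h1, by omega⟩
          · exact Or.inr ⟨h1, by omega⟩
        · rintro (⟨h1, h2⟩ | ⟨h1, h2⟩)
          · exact ⟨h1, by omega⟩
          · exact ⟨h1, by omega⟩
      have hdisj : Disjoint (G.filter (fun g => Ideal.absNorm g ≤ M))
          (G.filter (fun g => Ideal.absNorm g = M + 1)) := by
        rw [Finset.disjoint_left]
        intro g h1 h2
        rw [Finset.mem_filter] at h1 h2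
        omega
      rw [hsplit, Finset.sum_union hdisj, Finset.card_union_of_disjoint hdisj]
      have h2 : ∑ g ∈ G with Ideal.absNorm g = M + 1, 1 / (Ideal.absNorm g : ℝ) ^ 2 =
          ((G.filter (fun g => Ideal.absNorm g = M + 1)).card : ℝ) / ((M : ℝ) + 1) ^ 2 := by
        rw [Finset.sum_congr rfl (g := fun _ => 1 / ((M : ℝ) + 1) ^ 2)]
        · rw [Finset.sum_const, nsmul_eq_mul]
          ring
        · intro g hg
          rw [Finset.mem_filter] at hg
          rw [hg.2]
          push_cast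
          rfl
      rw [h2]
      have h3 := h M (hT.trans hM) (G.filter fun g => Ideal.absNorm g ≤ M)
        (fun g hg => (Finset.mem_filter.1 hg).2)
      set a : ℝ := ((G.filter fun g => Ideal.absNorm g ≤ M).card : ℝ) with ha
      set b : ℝ := ((G.filter (fun g => Ideal.absNorm g = M + 1)).card : ℝ) with hb
      have h4 : a / (M : ℝ) ^ 2 - a / ((M : ℝ) + 1) ^ 2 ≤ 2 * C * (1 / M - 1 / ((M : ℝ) + 1)) := by
        have e1 : a / (M : ℝ) ^ 2 - a / ((M : ℝ) + 1) ^ 2 =
            a * (2 * M + 1) / ((M : ℝ) ^ 2 * ((M : ℝ) + 1) ^ 2) := by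
          field_simp
          ring
        have e2 : 2 * C * (1 / (M : ℝ) - 1 / ((M : ℝ) + 1)) =
            (C * M) * (2 * (M + 1)) / ((M : ℝ) ^ 2 * ((M : ℝ) + 1) ^ 2) := by
          field_simp
          ring
        rw [e1, e2]
        refine div_le_div_of_nonneg_right ?_ (by positivity)
        refine mul_le_mul h3 (by linarith) (by positivity) (by positivity)
      push_cast
      rw [add_div]
      linarith
  obtain ⟨M, hM⟩ : ∃ M : ℕ, T ≤ M ∧ ∀ g ∈ G, Ideal.absNorm g ≤ M := by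
    refine ⟨T + G.sup (fun g => Ideal.absNorm g), by omega, fun g hg => ?_⟩
    have := Finset.le_sup (f := fun g => Ideal.absNorm g) hg
    omega
  have h1 := key M hM.1
  have hf : G.filter (fun g => Ideal.absNorm g ≤ M) = G := Finset.filter_true_of_mem hM.2
  rw [hf] at h1
  have h2 := h M (hT.trans hM.1) G hM.2
  have hM0 : (0 : ℝ) < M := by
    have : 0 < M := by omega
    exact_mod_cast this
  have hTM : (T : ℝ) ≤ M := by exact_mod_cast hM.1
  have h3 : (G.card : ℝ) / (M : ℝ) ^ 2 ≤ C / M := by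
    rw [div_le_div_iff₀ (by positivity) hM0]
    nlinarith
  have h4 : C / M ≤ C / T := div_le_div_of_nonneg_left hC.le hT0 hTM
  have h5 : 0 ≤ 2 * C * (1 / (M : ℝ)) := by positivity
  calc ∑ g ∈ G, 1 / (Ideal.absNorm g : ℝ) ^ 2 ≤ C / T + 2 * C * (1 / T) := by linarith
    _ = 3 * C / T := by ring

end Pool.Agent.N31.FR
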