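import Pool.Agent.N751.FR.Stm
import Pool.Agent.N31.FR.Tail
import Pool.Agent.N31.FR.Box
import Pool.Agent.N31.FR.Ht

/-!
# FR/TOT: lower bound for the number of points of degree `r`
-/

set_option autoImplicit false

namespace Pool.Agent.N31.FR

open NumberField IsDedekindDomain Module Polynomial Pool.Agent.N753.DR

variable {K : Type} [Field K] [NumberField K]

/-- the constant part -/
noncomputable def xc (x₀ : 𝓞 K) (N A : ℕ) (r D : ℕ) (i : Fin (r + 1)) : 𝓞 K :=
  if i = Fin.last r then 1 + N * (A * D) else if i = 0 then x₀ else 0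

/-- the vectors -/
noncomputable def cv (x₀ : 𝓞 K) (N A : ℕ) {r D : ℕ} (y : Fin (r + 1) → Ix K → Fin D) :
    Fin (r + 1) → 𝓞 K := fun i => xc x₀ N A r D i + N * el (co (y i))

theorem cv_inj {x₀ : 𝓞 K} {N A : ℕ} (hN : 1 ≤ N) {r D : ℕ} {y y' : Fin (r + 1) → Ix K → Fin D}
    (h : cv x₀ N A y = cv x₀ N A y') : y = y' := by
  funext i
  have h1 := congrFun h i
  unfold cv at h1
  have h2 : (N : 𝓞 K) * (el (co (y i)) - el (co (y' i))) = 0 := by
    rw [mul_sub, sub_eq_zero]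
    exact add_left_cancel h1
  have h3 : (N : 𝓞 K) ≠ 0 := by
    have : N ≠ 0 := by omega
    exact_mod_cast this
  have h4 := (mul_eq_zero.1 h2).resolve_left h3
  rw [sub_eq_zero] at h4
  exact co_injective (el_injective h4)

open Classical in
/-- the number of vectors with two coordinates in an ideal -/
theorem pair_count (x₀ : 𝓞 K) (N A : ℕ) (C₅ C₆ : ℕ) (h : ∀ D : ℕ, 1 ≤ D → ∀ g : Ideal (𝓞 K),
      g ≠ ⊥ → Ideal.absNorm g ≤ C₆ * D ^ finrank ℚ K → ∀ x₀ : 𝓞 K,
      (Finset.univ.filter fun y : Ix K → Fin D => x₀ + N * el (co y) ∈ g).card * Ideal.absNorm g ≤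
        C₅ * D ^ finrank ℚ K) {r D : ℕ} (hr : 1 ≤ r) (hD : 1 ≤ D) (g : Ideal (𝓞 K)) (hg : g ≠ ⊥)
    (hgD : Ideal.absNorm g ≤ C₆ * D ^ finrank ℚ K) :
    (Finset.univ.filter fun y : Fin (r + 1) → Ix K → Fin D =>
      cv x₀ N A y 0 ∈ g ∧ cv x₀ N A y (Fin.last r) ∈ g).card * Ideal.absNorm g ^ 2 ≤
        C₅ ^ 2 * (D ^ finrank ℚ K) ^ (r + 1) := by
  obtain ⟨k, rfl⟩ : ∃ k, r = k + 1 := ⟨r - 1, by omega⟩
  let S : Fin (k + 2) → Finset (Ix K → Fin D) := fun i =>
    if i = 0 ∨ i = Fin.last (k + 1) then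
      Finset.univ.filter fun y : Ix K → Fin D => xc x₀ N A (k + 1) D i + N * el (co y) ∈ g
    else Finset.univ
  have hsub : (Finset.univ.filter fun y : Fin (k + 1 + 1) → Ix K → Fin D =>
      cv x₀ N A y 0 ∈ g ∧ cv x₀ N A y (Fin.last (k + 1)) ∈ g) ⊆ Fintype.piFinset S := by
    intro y hy
    rw [Finset.mem_filter] at hy
    rw [Fintype.mem_piFinset]
    intro i
    show y i ∈ if i = 0 ∨ i = Fin.last (k + 1) then _ else _
    by_cases hi : i = 0 ∨ i = Fin.last (k + 1)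
    · rw [if_pos hi, Finset.mem_filter]
      refine ⟨Finset.mem_univ _, ?_⟩
      rcases hi with rfl | rfl
      · exact hy.2.1
      · exact hy.2.2
    · rw [if_neg hi]
      exact Finset.mem_univ _
  have h1 := Finset.card_le_card hsub
  rw [Fintype.card_piFinset, Fin.prod_univ_succ, Fin.prod_univ_castSucc] at h1
  have hS0 : (S 0).card * Ideal.absNorm g ≤ C₅ * D ^ finrank ℚ K := by
    have : S 0 = Finset.univ.filter fun y : Ix K → Fin D =>
        xc x₀ N A (k + 1) D 0 + N * el (co y) ∈ g := if_pos (Or.inl rfl)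
    rw [this]
    exact h D hD g hg hgD _
  have hS1 : (S (Fin.last k).succ).card * Ideal.absNorm g ≤ C₅ * D ^ finrank ℚ K := by
    have : S (Fin.last k).succ = Finset.univ.filter fun y : Ix K → Fin D =>
        xc x₀ N A (k + 1) D (Fin.last k).succ + N * el (co y) ∈ g := if_pos (Or.inr rfl)
    rw [this]
    exact h D hD g hg hgD _
  have hSm : ∀ i : Fin k, (S i.castSucc.succ).card = D ^ finrank ℚ K := by
    intro i
    have : S i.castSucc.succ = Finset.univ := by
      refine if_neg ?_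
      rintro (h2 | h2)
      · exact absurd h2 (Fin.succ_ne_zero _)
      · have := congrArg Fin.val h2
        simp only [Fin.val_succ, Fin.val_castSucc, Fin.val_last] at this
        have := i.2
        omega
    rw [this, Finset.card_univ, Fintype.card_fun, Fintype.card_fin, card_Ix]
  rw [Finset.prod_congr rfl fun i _ => hSm i, Finset.prod_const, Finset.card_univ,
    Fintype.card_fin] at h1
  calc _ ≤ ((S 0).card * ((D ^ finrank ℚ K) ^ k * (S (Fin.last k).succ).card)) *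
        Ideal.absNorm g ^ 2 := Nat.mul_le_mul_right _ h1
    _ = ((S 0).card * Ideal.absNorm g) * ((S (Fin.last k).succ).card * Ideal.absNorm g) *
        (D ^ finrank ℚ K) ^ k := by ring
    _ ≤ (C₅ * D ^ finrank ℚ K) * (C₅ * D ^ finrank ℚ K) * (D ^ finrank ℚ K) ^ k :=
        Nat.mul_le_mul_right _ (Nat.mul_le_mul hS0 hS1)
    _ = _ := by ring

/-- the possible ratios -/
def Lam (K : Type) [Field K] [NumberField K] (T : ℕ) (R : ℝ) : Set K :=
  {l | ∃ t : ℕ, 1 ≤ t ∧ t ≤ T ∧ IsIntegral ℤ ((t : K) * l) ∧ ∀ φ : K →+* ℂ, ‖φ l‖ ≤ R}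

theorem Lam_finite (T : ℕ) (R : ℝ) : (Lam K T R).Finite := by
  have h1 : (⋃ t ∈ Finset.Icc 1 T, (fun m : K => m / t) ''
      {m : K | IsIntegral ℤ m ∧ ∀ φ : K →+* ℂ, ‖φ m‖ ≤ T * |R|}).Finite := by
    refine Set.Finite.biUnion (Finset.finite_toSet _) fun t _ => ?_
    exact (NumberField.Embeddings.finite_of_norm_le K ℂ (T * |R|)).image _
  refine h1.subset ?_
  rintro l ⟨t, h2, h3, h4, h5⟩
  rw [Set.mem_iUnion₂]
  refine ⟨t, Finset.mem_Icc.2 ⟨h2, h3⟩, (t : K) * l, ⟨h4, fun φ => ?_⟩, ?_⟩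
  · rw [map_mul, map_natCast, norm_mul, Complex.norm_natCast]
    refine mul_le_mul (by exact_mod_cast h3) ((h5 φ).trans (le_abs_self R)) (norm_nonneg _)
      (Nat.cast_nonneg _)
  · have : (t : K) ≠ 0 := by
      have : t ≠ 0 := by omega
      exact_mod_cast this
    show (t : K) * l / t = l
    field_simp

/-- proportional vectors -/
theorem ratio_mem {r : ℕ} {c c' : Fin (r + 1) → 𝓞 K} {T : ℕ} {R D : ℝ} (hD : 0 < D)
    (hR : 0 ≤ R)
    (hT : Ideal.absNorm (Ideal.span {c 0, c (Fin.last r)}) ≤ T)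
    (hlow : ∀ φ : K →+* ℂ, D ≤ ‖φ (c (Fin.last r) : K)‖)
    (hup : ∀ φ : K →+* ℂ, ‖φ (c' (Fin.last r) : K)‖ ≤ R * D) (h : gp c = gp c') :
    (c' (Fin.last r) : K) / (c (Fin.last r) : K) ∈ Lam K T R ∧ (c (Fin.last r) : K) ≠ 0 ∧
      ∀ i, (c' i : K) = ((c' (Fin.last r) : K) / (c (Fin.last r) : K)) * (c i : K) := by
  have hc : (c (Fin.last r) : K) ≠ 0 := by
    intro h0
    obtain ⟨φ⟩ : Nonempty (K →+* ℂ) := inferInstance
    have := hlow φ
    rw [h0, map_zero, norm_zero] at this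
    linarith
  have hprop : ∀ i, (c' i : K) = ((c' (Fin.last r) : K) / (c (Fin.last r) : K)) * (c i : K) := by
    intro i
    have h1 := congrArg (fun p : K[X] => p.coeff i) h
    simp only [gp_coeff] at h1
    by_cases h0 : (c' (Fin.last r) : K) = 0
    · have h2 := congrArg (fun p : K[X] => p.coeff (Fin.last r : Fin (r + 1))) h
      simp only [gp_coeff] at h2
      rw [h0, inv_zero, mul_zero, mul_inv_cancel₀ hc] at h2
      exact absurd h2 one_ne_zero
    · field_simp at h1 ⊢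
      linear_combination -h1
  refine ⟨⟨Ideal.absNorm (Ideal.span {c 0, c (Fin.last r)}), ?_, hT, ?_, ?_⟩, hc, hprop⟩
  · rw [Nat.one_le_iff_ne_zero, Ne, Ideal.absNorm_eq_zero_iff]
    intro h0
    have h1 : c (Fin.last r) ∈ Ideal.span {c 0, c (Fin.last r)} :=
      Ideal.subset_span (Or.inr rfl)
    rw [h0, Ideal.mem_bot] at h1
    exact hc (by rw [h1]; rfl)
  · have h1 := Ideal.absNorm_mem (Ideal.span {c 0, c (Fin.last r)})
    rw [Ideal.mem_span_pair] at h1
    obtain ⟨u, v, huv⟩ := h1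
    have h2 : ((Ideal.absNorm (Ideal.span {c 0, c (Fin.last r)}) : ℕ) : K) =
        (u : K) * (c 0 : K) + (v : K) * (c (Fin.last r) : K) := by
      have := congrArg (fun z : 𝓞 K => (z : K)) huv
      push_cast at this
      rw [← this]
    rw [h2]
    have h3 : ((u : K) * (c 0 : K) + (v : K) * (c (Fin.last r) : K)) *
        ((c' (Fin.last r) : K) / (c (Fin.last r) : K)) =
        ((u * c' 0 + v * c' (Fin.last r) : 𝓞 K) : K) := by
      have e : ((u * c' 0 + v * c' (Fin.last r) : 𝓞 K) : K) =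
          (u : K) * (c' 0 : K) + (v : K) * (c' (Fin.last r) : K) := rfl
      rw [e]
      linear_combination -(u : K) * hprop 0 - (v : K) * hprop (Fin.last r)
    rw [h3]
    exact RingOfIntegers.isIntegral_coe _
  · intro φ
    rw [map_div₀, norm_div, div_le_iff₀ (hD.trans_le (hlow φ))]
    exact (hup φ).trans (mul_le_mul_of_nonneg_left (hlow φ) hR)

theorem t : Pool.Agent.N751.FR.StmTot := by
  classical
  intro K _ _ r hr
  -- the prime
  obtain ⟨q⟩ : Nonempty (HeightOneSpectrum (𝓞 K)) := by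
    obtain ⟨M, hM⟩ := Ideal.exists_maximal (𝓞 K)
    exact ⟨⟨M, hM.isPrime, Ring.ne_bot_of_isMaximal_of_not_isField hM
      (RingOfIntegers.not_isField K)⟩⟩
  obtain ⟨x₀, hx₀, hx₀'⟩ : ∃ x₀ : 𝓞 K, x₀ ∈ q.asIdeal ∧ x₀ ∉ q.asIdeal ^ 2 := by
    have h1 : q.asIdeal ^ 2 < q.asIdeal := by
      refine Ideal.pow_right_strictAnti q.asIdeal q.ne_bot q.isPrime.ne_top (by norm_num : 1 < 2)
        |>.trans_eq (pow_one _)
    exact SetLike.exists_of_lt h1
  obtain ⟨N, hN, hNq⟩ : ∃ N : ℕ, 1 ≤ N ∧ (N : 𝓞 K) ∈ q.asIdeal ^ 2 := by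
    refine ⟨Ideal.absNorm q.asIdeal ^ 2, ?_, ?_⟩
    · refine Nat.one_le_pow _ _ (Nat.pos_of_ne_zero ?_)
      rw [Ne, Ideal.absNorm_eq_zero_iff]
      exact q.ne_bot
    · rw [Nat.cast_pow]
      exact Ideal.pow_mem_pow (Ideal.absNorm_mem _) 2
  have hNq' : (N : 𝓞 K) ∈ q.asIdeal := Ideal.pow_le_self two_ne_zero hNq
  obtain ⟨C, hC, hel⟩ := el_bound K
  obtain ⟨A, hA⟩ : ∃ A, A = C + 2 := ⟨_, rfl⟩
  obtain ⟨X₀, hX₀⟩ : ∃ X₀ : ℕ, ∀ φ : K →+* ℂ, ‖φ (x₀ : K)‖ ≤ X₀ := by
    refine ⟨⌈∑ φ : K →+* ℂ, ‖φ (x₀ : K)‖⌉₊, fun φ => le_trans ?_ (Nat.le_ceil _)⟩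
    exact Finset.single_le_sum (f := fun φ : K →+* ℂ => ‖φ (x₀ : K)‖)
      (fun φ _ => norm_nonneg _) (Finset.mem_univ φ)
  obtain ⟨R, hR⟩ : ∃ R, R = X₀ + 1 + N * (A + C) := ⟨_, rfl⟩
  have hR1 : 1 ≤ R := by omega
  have hlast0 : (0 : Fin (r + 1)) ≠ Fin.last r := by
    intro h
    have := congrArg Fin.val h
    rw [Fin.val_last] at this
    simp only [Fin.val_zero] at this
    omega
  -- bounds for the conjugates
  have hco : ∀ {D : ℕ} (y : Ix K → Fin D) (φ : K →+* ℂ), ‖φ (el (co y) : K)‖ ≤ C * D := by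
    intro D y φ
    refine hel _ _ (fun j => ?_) φ
    unfold co
    rw [Nat.abs_cast]
    exact_mod_cast (y j).2.le
  have hup : ∀ {D : ℕ}, 1 ≤ D → ∀ (y : Fin (r + 1) → Ix K → Fin D) (i) (φ : K →+* ℂ),
      ‖φ (cv x₀ N A y i : K)‖ ≤ R * D := by
    intro D hD y i φ
    have hD1 : (1 : ℝ) ≤ D := by exact_mod_cast hD
    have h1 : φ (cv x₀ N A y i : K) = φ (xc x₀ N A r D i : K) + N * φ (el (co (y i)) : K) := by
      unfold cv
      push_cast
      rw [map_add, map_mul, map_natCast]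
    rw [h1]
    refine (norm_add_le _ _).trans ?_
    rw [norm_mul, Complex.norm_natCast]
    have h2 := hco (y i) φ
    have h3 : ‖φ (xc x₀ N A r D i : K)‖ ≤ (X₀ + 1 + N * A) * D := by
      unfold xc
      split_ifs with h4 h5
      · push_cast
        rw [map_add, map_one, map_mul, map_mul, map_natCast, map_natCast, map_natCast]
        refine (norm_add_le _ _).trans ?_
        rw [norm_one, norm_mul, norm_mul, Complex.norm_natCast, Complex.norm_natCast,
          Complex.norm_natCast]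
        have : (0 : ℝ) ≤ X₀ := Nat.cast_nonneg _
        nlinarith
      · refine (hX₀ φ).trans ?_
        have h6 : (0 : ℝ) ≤ X₀ := Nat.cast_nonneg _
        have h7 : (0 : ℝ) ≤ (1 + N * A) * D := by positivity
        nlinarith
      · have h00 : ((0 : 𝓞 K) : K) = 0 := RingOfIntegers.coe_eq_zero_iff.2 rfl
        rw [h00, map_zero, norm_zero]
        positivity
    have h4 : (N : ℝ) * ‖φ (el (co (y i)) : K)‖ ≤ N * (C * D) :=
      mul_le_mul_of_nonneg_left h2 (Nat.cast_nonneg _)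
    rw [hR]
    push_cast
    calc _ ≤ ((X₀ : ℝ) + 1 + N * A) * D + N * (C * D) := add_le_add h3 h4
      _ = _ := by ring
  have hlow : ∀ {D : ℕ}, 1 ≤ D → ∀ (y : Fin (r + 1) → Ix K → Fin D) (φ : K →+* ℂ),
      (D : ℝ) ≤ ‖φ (cv x₀ N A y (Fin.last r) : K)‖ := by
    intro D hD y φ
    have hD1 : (1 : ℝ) ≤ D := by exact_mod_cast hD
    have hN1 : (1 : ℝ) ≤ N := by exact_mod_cast hN
    have h1 : φ (cv x₀ N A y (Fin.last r) : K) =
        ((1 + N * (A * D) : ℕ) : ℂ) + N * φ (el (co (y (Fin.last r))) : K) := by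
      unfold cv xc
      rw [if_pos rfl]
      push_cast
      rw [map_add, map_add, map_one, map_mul, map_mul, map_mul, map_natCast, map_natCast,
        map_natCast]
    rw [h1]
    have h2 := norm_sub_le_norm_add ((1 + N * (A * D) : ℕ) : ℂ)
      (N * φ (el (co (y (Fin.last r))) : K))
    rw [Complex.norm_natCast, norm_mul, Complex.norm_natCast] at h2
    have h3 := mul_le_mul_of_nonneg_left (hco (y (Fin.last r)) φ) (Nat.cast_nonneg (α := ℝ) N)
    have h4 : (D : ℝ) ≤ N * D := le_mul_of_one_le_left (by linarith) hN1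
    refine le_trans ?_ h2
    rw [hA]
    push_cast
    nlinarith
  have hne : ∀ {D : ℕ}, 1 ≤ D → ∀ (y : Fin (r + 1) → Ix K → Fin D),
      cv x₀ N A y (Fin.last r) ≠ 0 := by
    intro D hD y h0
    obtain ⟨φ⟩ : Nonempty (K →+* ℂ) := inferInstance
    have h1 := hlow hD y φ
    have hD1 : (1 : ℝ) ≤ D := by exact_mod_cast hD
    have h00 : ((0 : 𝓞 K) : K) = 0 := RingOfIntegers.coe_eq_zero_iff.2 rfl
    rw [h0, h00, map_zero, norm_zero] at h1
    linarith
  -- the constants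
  obtain ⟨C₅, hC₅⟩ := box_count K N hN (R ^ finrank ℚ K) (Nat.one_le_pow _ _ hR1)
  obtain ⟨Ct, T₀, hCt, hT₀, htail⟩ := tail K
  obtain ⟨T, hT, hTT⟩ : ∃ T : ℕ, T₀ ≤ T ∧ (C₅ : ℝ) ^ 2 * (Ct / T) ≤ 1 / 2 := by
    refine ⟨max T₀ ⌈2 * (C₅ : ℝ) ^ 2 * Ct⌉₊, le_max_left _ _, ?_⟩
    have h1 : 2 * (C₅ : ℝ) ^ 2 * Ct ≤ (max T₀ ⌈2 * (C₅ : ℝ) ^ 2 * Ct⌉₊ : ℕ) :=
      (Nat.le_ceil _).trans (by exact_mod_cast le_max_right _ _)
    have h2 : (0 : ℝ) < (max T₀ ⌈2 * (C₅ : ℝ) ^ 2 * Ct⌉₊ : ℕ) := by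
      have : 0 < max T₀ ⌈2 * (C₅ : ℝ) ^ 2 * Ct⌉₊ := lt_of_lt_of_le hT₀ (le_max_left _ _)
      exact_mod_cast this
    rw [← mul_div_assoc, div_le_div_iff₀ h2 (by norm_num)]
    linarith
  obtain ⟨G, hG⟩ : ∃ G, G = (Lam K T R).ncard := ⟨_, rfl⟩
  obtain ⟨Ch, hCh⟩ := atH K r
  obtain ⟨n, hn⟩ : ∃ n, n = finrank ℚ K := ⟨_, rfl⟩
  have hn0 : (0 : ℝ) < n := by
    rw [hn]
    exact_mod_cast (Module.finrank_pos : 0 < finrank ℚ K)
  obtain ⟨C₁, hC₁⟩ : ∃ C₁ : ℝ, C₁ = n * Real.log R + Ch := ⟨_, rfl⟩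
  refine ⟨Real.exp (-((r + 1) * C₁)) / (2 ^ (n * (r + 1)) * (2 * (G + 1))), C₁, by positivity,
    fun U hU => ?_⟩
  obtain ⟨D, hD⟩ : ∃ D : ℕ, D = ⌊Real.exp ((U - C₁) / n)⌋₊ := ⟨_, rfl⟩
  have hexp1 : 1 ≤ Real.exp ((U - C₁) / n) :=
    Real.one_le_exp (div_nonneg (by linarith) hn0.le)
  have hD1 : 1 ≤ D := by
    rw [hD]
    exact Nat.le_floor (by exact_mod_cast hexp1)
  have hD1' : (1 : ℝ) ≤ D := by exact_mod_cast hD1
  have hDle : (D : ℝ) ≤ Real.exp ((U - C₁) / n) := by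
    rw [hD]
    exact Nat.floor_le (by positivity)
  have hDge : Real.exp ((U - C₁) / n) / 2 ≤ D := by
    have h1 := Nat.lt_floor_add_one (Real.exp ((U - C₁) / n))
    rw [← hD] at h1
    linarith
  let c : (Fin (r + 1) → Ix K → Fin D) → Fin (r + 1) → 𝓞 K := cv x₀ N A
  let gy : (Fin (r + 1) → Ix K → Fin D) → Ideal (𝓞 K) := fun y =>
    Ideal.span {c y 0, c y (Fin.last r)}
  have hgy0 : ∀ y, gy y ≠ ⊥ := by
    intro y h0
    have h1 : c y (Fin.last r) ∈ gy y := Ideal.subset_span (Or.inr rfl)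
    rw [h0, Ideal.mem_bot] at h1
    exact hne hD1 y h1
  have hgyD : ∀ y, Ideal.absNorm (gy y) ≤ R ^ finrank ℚ K * D ^ finrank ℚ K := by
    intro y
    have h1 : Ideal.span {c y (Fin.last r)} ≤ gy y :=
      (Ideal.span_singleton_le_iff_mem _).2 (Ideal.subset_span (Or.inr rfl))
    have h2 : Ideal.absNorm (Ideal.span {c y (Fin.last r)}) ≠ 0 := by
      rw [Ne, Ideal.absNorm_eq_zero_iff, Ideal.span_singleton_eq_bot]
      exact hne hD1 y
    have h3 := Nat.le_of_dvd (Nat.pos_of_ne_zero h2) (Ideal.absNorm_dvd_absNorm_of_le h1)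
    have h4 := absNorm_span_le (K := K) (a := c y (Fin.last r)) (R := R * D)
      (fun φ => hup hD1 y _ φ)
    rw [← mul_pow]
    refine h3.trans ?_
    exact_mod_cast h4
  -- the bad vectors
  let Bad : Finset (Fin (r + 1) → Ix K → Fin D) := Finset.univ.filter fun y =>
    T < Ideal.absNorm (gy y)
  let Good : Finset (Fin (r + 1) → Ix K → Fin D) := Finset.univ.filter fun y =>
    Ideal.absNorm (gy y) ≤ T
  have hbad : (Bad.card : ℝ) ≤ ((D : ℝ) ^ finrank ℚ K) ^ (r + 1) / 2 := by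
    have h1 : (Bad.card : ℝ) = ∑ g ∈ Bad.image gy, ((Bad.filter fun y => gy y = g).card : ℝ) := by
      rw [Finset.card_eq_sum_card_image gy Bad]
      push_cast
      rfl
    have h2 : ∀ g ∈ Bad.image gy, ((Bad.filter fun y => gy y = g).card : ℝ) ≤
        (C₅ : ℝ) ^ 2 * ((D : ℝ) ^ finrank ℚ K) ^ (r + 1) * (1 / (Ideal.absNorm g : ℝ) ^ 2) := by
      intro g hg
      obtain ⟨y₀, -, rfl⟩ := Finset.mem_image.1 hg
      have h3 := pair_count x₀ N A C₅ (R ^ finrank ℚ K) hC₅ hr hD1 (gy y₀) (hgy0 y₀) (hgyD y₀)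
      have h4 : (Bad.filter fun y => gy y = gy y₀).card ≤
          (Finset.univ.filter fun y : Fin (r + 1) → Ix K → Fin D =>
            cv x₀ N A y 0 ∈ gy y₀ ∧ cv x₀ N A y (Fin.last r) ∈ gy y₀).card := by
        refine Finset.card_le_card fun y hy => ?_
        rw [Finset.mem_filter] at hy ⊢
        refine ⟨Finset.mem_univ _, ?_, ?_⟩
        · rw [← hy.2]
          exact Ideal.subset_span (Or.inl rfl)
        · rw [← hy.2]
          exact Ideal.subset_span (Or.inr rfl)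
      have h5 := (Nat.mul_le_mul_right (Ideal.absNorm (gy y₀) ^ 2) h4).trans h3
      have h6 : (0 : ℝ) < (Ideal.absNorm (gy y₀) : ℝ) ^ 2 := by
        have : Ideal.absNorm (gy y₀) ≠ 0 := by
          rw [Ne, Ideal.absNorm_eq_zero_iff]
          exact hgy0 y₀
        have : (0 : ℝ) < (Ideal.absNorm (gy y₀) : ℝ) := by
          exact_mod_cast Nat.pos_of_ne_zero this
        positivity
      rw [mul_one_div, le_div_iff₀ h6]
      exact_mod_cast h5
    have h3 : ∀ g ∈ Bad.image gy, T < Ideal.absNorm g := by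
      intro g hg
      obtain ⟨y₀, hy₀, rfl⟩ := Finset.mem_image.1 hg
      exact (Finset.mem_filter.1 hy₀).2
    have h4 := htail T hT (Bad.image gy) h3
    rw [h1]
    refine (Finset.sum_le_sum h2).trans ?_
    rw [← Finset.mul_sum]
    calc (C₅ : ℝ) ^ 2 * ((D : ℝ) ^ finrank ℚ K) ^ (r + 1) *
          ∑ g ∈ Bad.image gy, 1 / (Ideal.absNorm g : ℝ) ^ 2
        ≤ (C₅ : ℝ) ^ 2 * ((D : ℝ) ^ finrank ℚ K) ^ (r + 1) * (Ct / T) :=
          mul_le_mul_of_nonneg_left h4 (by positivity)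
      _ = ((D : ℝ) ^ finrank ℚ K) ^ (r + 1) * ((C₅ : ℝ) ^ 2 * (Ct / T)) := by ring
      _ ≤ ((D : ℝ) ^ finrank ℚ K) ^ (r + 1) * (1 / 2) :=
          mul_le_mul_of_nonneg_left hTT (by positivity)
      _ = _ := by ring
  have hgood : ((D : ℝ) ^ finrank ℚ K) ^ (r + 1) / 2 ≤ Good.card := by
    have h1 : Good.card + Bad.card = (D ^ finrank ℚ K) ^ (r + 1) := by
      have h2 := Finset.card_filter_add_card_filter_not (s := (Finset.univ : Finset
        (Fin (r + 1) → Ix K → Fin D))) (fun y => Ideal.absNorm (gy y) ≤ T)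
      have h3 : (Finset.univ.filter fun y => ¬ Ideal.absNorm (gy y) ≤ T) = Bad := by
        refine Finset.filter_congr fun y _ => ?_
        rw [not_le]
      rw [h3] at h2
      rw [h2, Finset.card_univ, Fintype.card_fun, Fintype.card_fun, Fintype.card_fin,
        Fintype.card_fin, card_Ix]
    have h2 : (Good.card : ℝ) + Bad.card = ((D : ℝ) ^ finrank ℚ K) ^ (r + 1) := by
      exact_mod_cast h1
    linarith
  -- the multiplicity
  have hfib : ∀ p ∈ Good.image fun y => gp (c y),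
      (Good.filter fun y => gp (c y) = p).card ≤ G := by
    intro p hp
    obtain ⟨y₀, hy₀, rfl⟩ := Finset.mem_image.1 hp
    have hfin := Lam_finite (K := K) T R
    have hmem : ∀ y ∈ Good.filter fun y => gp (c y) = gp (c y₀),
        (c y (Fin.last r) : K) / (c y₀ (Fin.last r) : K) ∈ Lam K T R ∧
          (c y₀ (Fin.last r) : K) ≠ 0 ∧
          ∀ i, (c y i : K) = ((c y (Fin.last r) : K) / (c y₀ (Fin.last r) : K)) * (c y₀ i : K) := by
      intro y hy
      rw [Finset.mem_filter] at hy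
      exact ratio_mem (D := D) (by linarith) (Nat.cast_nonneg _) (Finset.mem_filter.1 hy₀).2
        (fun φ => hlow hD1 y₀ φ) (fun φ => hup hD1 y _ φ) hy.2.symm
    rw [hG, Set.ncard_eq_toFinset_card _ hfin]
    refine Finset.card_le_card_of_injOn
      (fun y => (c y (Fin.last r) : K) / (c y₀ (Fin.last r) : K)) ?_ ?_
    · intro y hy
      rw [Finset.mem_coe, Set.Finite.mem_toFinset]
      exact (hmem y hy).1
    · intro y hy y' hy' h1
      simp only at h1
      refine cv_inj (x₀ := x₀) (A := A) hN ?_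
      funext i
      have h2 := (hmem y hy).2.2 i
      have h3 := (hmem y' hy').2.2 i
      rw [h1, ← h3] at h2
      exact RingOfIntegers.ext h2
  have hmul := Finset.card_le_mul_card_image (f := fun y => gp (c y)) Good G hfib
  refine ⟨Good.image fun y => gp (c y), ?_, ?_⟩
  · intro p hp
    obtain ⟨y, -, rfl⟩ := Finset.mem_image.1 hp
    refine hCh (c y) (R * D) U ?_ (hne hD1 y) (fun i φ => hup hD1 y i φ) ?_ ?_
    · have : (1 : ℝ) ≤ R := by exact_mod_cast hR1
      nlinarith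
    · refine irreducible_gp q hr ?_ ?_ ?_
      · intro i hi
        show xc x₀ N A r D i + N * el (co (y i)) ∈ q.asIdeal
        refine Ideal.add_mem _ ?_ (Ideal.mul_mem_right _ _ hNq')
        unfold xc
        rw [if_neg hi]
        split_ifs
        · exact hx₀
        · exact Ideal.zero_mem _
      · intro h1
        apply hx₀'
        have h2 : x₀ + N * el (co (y 0)) ∈ q.asIdeal ^ 2 := by
          have h3 : c y 0 = x₀ + N * el (co (y 0)) := by
            show xc x₀ N A r D 0 + N * el (co (y 0)) = _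
            unfold xc
            rw [if_neg hlast0, if_pos rfl]
          rw [← h3]
          exact h1
        exact (Ideal.add_mem_iff_left _ (Ideal.mul_mem_right _ _ hNq)).1 h2
      · intro h1
        have h2 : (1 : 𝓞 K) + N * (A * D) + N * el (co (y (Fin.last r))) ∈ q.asIdeal := by
          have h3 : c y (Fin.last r) = 1 + N * (A * D) + N * el (co (y (Fin.last r))) := by
            show xc x₀ N A r D (Fin.last r) + N * el (co (y (Fin.last r))) = _
            unfold xc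
            rw [if_pos rfl]
          rw [← h3]
          exact h1
        have h4 := (Ideal.add_mem_iff_left _ (Ideal.mul_mem_right _ _ hNq')).1 h2
        have h5 := (Ideal.add_mem_iff_left _ (Ideal.mul_mem_right _ _ hNq')).1 h4
        exact q.isPrime.ne_top ((Ideal.eq_top_iff_one _).2 h5)
    · rw [← hn, Real.log_mul (by positivity) (by positivity)]
      have h1 : Real.log D ≤ (U - C₁) / n := by
        rw [← Real.log_exp ((U - C₁) / n)]
        exact Real.log_le_log (by linarith) hDle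
      rw [le_div_iff₀ hn0] at h1
      rw [hC₁] at h1
      linarith
  · have h1 : (Good.card : ℝ) ≤ (G + 1) * ((Good.image fun y => gp (c y)).card : ℝ) := by
      have h2 : (Good.card : ℝ) ≤ G * ((Good.image fun y => gp (c y)).card : ℝ) := by
        exact_mod_cast hmul
      have h3 : (0 : ℝ) ≤ ((Good.image fun y => gp (c y)).card : ℝ) := Nat.cast_nonneg _
      linarith
    have h2 : Real.exp ((r + 1) * (U - C₁)) / 2 ^ (n * (r + 1)) ≤
        ((D : ℝ) ^ finrank ℚ K) ^ (r + 1) := by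
      rw [← hn, ← pow_mul]
      calc Real.exp ((r + 1) * (U - C₁)) / 2 ^ (n * (r + 1)) =
            (Real.exp ((U - C₁) / n) / 2) ^ (n * (r + 1)) := by
            rw [div_pow, ← Real.exp_nat_mul]
            congr 2
            push_cast
            field_simp
        _ ≤ _ := pow_le_pow_left₀ (by positivity) hDge _
    have h3 : Real.exp (-((r + 1) * C₁)) / (2 ^ (n * (r + 1)) * (2 * (G + 1))) *
        Real.exp ((r + 1) * U) =
        Real.exp ((r + 1) * (U - C₁)) / 2 ^ (n * (r + 1)) / 2 / (G + 1) := by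
      have h4 : Real.exp ((r + 1) * (U - C₁)) =
          Real.exp (-((r + 1) * C₁)) * Real.exp ((r + 1) * U) := by
        rw [← Real.exp_add]
        congr 1
        ring
      rw [h4]
      field_simp
    rw [h3, div_le_iff₀ (by positivity)]
    have h4 := div_le_div_of_nonneg_right h2 (by norm_num : (0 : ℝ) ≤ 2)
    linarith

end Pool.Agent.N31.FR
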